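import Pool.Agent.Q161.ESB.Stm2
import Pool.Agent.Q299.ESM.Cnt
import Pool.Agent.Q285.ESN.Cnf

/-!
# Project ESB, job CNF: the number of the allowed classes, several places, `M` blocks
-/

set_option autoImplicit false
set_option linter.unusedSectionVars false

namespace Pool.Agent.Q285.ESB

open Finset
open Pool.Agent.Q161.ESM (Vm NS IsSub Semi S_KEY)
open Pool.Agent.Q161.ESB (AbB S_CNF EqB S_LCUB S_LCTB BadB)
open Pool.Agent.Q285.ESN (prod_est)

/-- the conclusion of `S_LCUB` for given `M`, `V`, with `ncard` -/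
def LU (M : ℕ) (V : Type) (A : ℝ) : Prop := ∀ (k : Type) [Field k] [Fintype k] (l : ℕ), l.Prime →
  ∀ (F : V → V), Function.Bijective F →
  ∀ (S : Finset (V × Fin M)), (∀ s m, (s, m) ∈ S ↔ (F s, m) ∈ S) → ∀ z : V × Fin M → k,
    (({c : V × Fin M → k | EqB l F c ∧ (∀ x, x ∉ S → c x = z x) ∧ ∀ x ∈ S, c x ≠ 0}.ncard : ℕ) : ℝ) ≤
      (l : ℝ) ^ S.card * (1 - (({x : V × Fin M | x ∈ S ∧ F x.1 = x.1}.ncard : ℕ) : ℝ) / l + A / (l : ℝ) ^ 2)

lemma lu (hU : S_LCUB) (M : ℕ) (V : Type) [AddCommGroup V] [Fintype V] : ∃ A : ℝ, 0 ≤ A ∧ LU M V A := by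
  classical
  obtain ⟨A, hA⟩ := hU M V
  refine ⟨|A|, abs_nonneg _, ?_⟩
  intro k _ _ l hl F hF S hS z
  refine (hA k l hl F hF S hS z).trans ?_
  have e : (({x : V × Fin M | x ∈ S ∧ F x.1 = x.1}.ncard : ℕ) : ℝ) = ((S.filter (fun x => F x.1 = x.1)).card : ℝ) := by
    rw [← Set.ncard_coe_finset]
    congr 2
    ext x
    simp
  rw [e]
  have h1 : A / (l : ℝ) ^ 2 ≤ |A| / (l : ℝ) ^ 2 := div_le_div_of_nonneg_right (le_abs_self A) (by positivity)
  exact mul_le_mul_of_nonneg_left (by linarith) (by positivity)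

/-! ### one place -/

section place

variable {k V G : Type} [Field k] [AddCommGroup V] [Fintype V] [Group G] [DistribMulAction G V] {M : ℕ}

open Classical in
/-- the functions without zeros in `WS`, and those with one zero in `J` and given characters -/
def AA (l : ℕ) (F : G) (WS : Finset (V × Fin M)) (z : V × Fin M → k) (ξ : V → (V →+ ZMod 2) → k)
    (J : Finset (V × Fin M)) : Set (V × Fin M → k) :=
  {c : V × Fin M → k | EqB l (fun s => F • s) c ∧ (∀ x, x ∉ WS → c x = z x) ∧ ∀ x ∈ WS, c x ≠ 0} ∪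
    ⋃ x0 ∈ J, {c : V × Fin M → k | EqB l (fun s => F • s) c ∧
      (∀ x, x ∉ WS → c x = z x) ∧ c (x0.1, x0.2) = 0 ∧ (∀ x, x ≠ (x0.1, x0.2) → c x ≠ 0) ∧
      ∀ φ : V →+ ZMod 2, (∀ s, φ (F • s) = φ s) →
        (∏ s ∈ univ.filter (fun s => φ (s - x0.1) ≠ 0), ∏ m, c (s, m)) ^ ((l - 1) / 2) = ξ x0.1 φ}

theorem place {A : ℝ} (hU : LU M V A) (hT : S_LCTB) (h2 : ∀ v : V, v + v = 0) [Fintype k] {l f : ℕ} (hlp : l.Prime) (hl2 : l ≠ 2)
    (hcard : Fintype.card k = l ^ f) (F : G) (hFf : F ^ f = 1) (WS : Finset (V × Fin M)) (hVne : 0 < WS.card)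
    (hst : ∀ s m, (s, m) ∈ WS ↔ (F • s, m) ∈ WS)
    (z : V × Fin M → k) (ξ : V → (V →+ ZMod 2) → k) (J : Finset (V × Fin M)) (hJ : ∀ x ∈ J, x ∈ WS ∧ F • x.1 = x.1) (Mx : ℝ) (hM : 0 < Mx)
    (hNS : ∀ x ∈ J, Mx ≤ NS (fun s => F • s) {s : V | ∃ m, (s, m) ∈ WS} x.1) (N r : ℝ)
    (hN : (({x : V × Fin M | x ∈ WS ∧ F • x.1 = x.1}.ncard : ℕ) : ℝ) = N) (hr : (J.card : ℝ) / Mx ≤ r) :
    ((AA l F WS z ξ J).ncard : ℝ) ≤ (l : ℝ) ^ WS.card * (1 + (-(N - r) / l + A / (l : ℝ) ^ 2)) := by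
  classical
  have hl' : (0 : ℝ) < l := by exact_mod_cast hlp.pos
  have hbij : Function.Bijective (fun s : V => F • s) := MulAction.bijective F
  have hA0 := hU k l hlp (fun s => F • s) hbij WS hst z
  rw [hN] at hA0
  have hA1 : ∀ x0 ∈ J, (({c : V × Fin M → k | EqB l (fun s => F • s) c ∧
      (∀ x, x ∉ WS → c x = z x) ∧ c (x0.1, x0.2) = 0 ∧ (∀ x, x ≠ (x0.1, x0.2) → c x ≠ 0) ∧
      ∀ φ : V →+ ZMod 2, (∀ s, φ (F • s) = φ s) →
        (∏ s ∈ univ.filter (fun s => φ (s - x0.1) ≠ 0), ∏ m, c (s, m)) ^ ((l - 1) / 2) = ξ x0.1 φ}.ncard : ℕ) : ℝ) ≤ (l : ℝ) ^ (WS.card - 1) / Mx := by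
    intro x0 hx0
    have hq := hT M k V l f hlp hl2 hcard h2 (DistribSMul.toAddMonoidHom V F) hbij
      (by
        intro s
        have e1 : ∀ m : ℕ, (⇑(DistribSMul.toAddMonoidHom V F))^[m] s = F ^ m • s := by
          intro m
          induction m with
          | zero => simp
          | succ m ih =>
            rw [Function.iterate_succ_apply', ih, pow_succ', mul_smul]
            rfl
        rw [e1, hFf, one_smul])
      WS hst z x0.1 x0.2 (hJ x0 hx0).1 (hJ x0 hx0).2 (ξ x0.1)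
    rw [le_div_iff₀ hM]
    refine le_trans ?_ hq
    exact mul_le_mul_of_nonneg_left (hNS x0 hx0) (Nat.cast_nonneg _)
  have hc1 : (AA l F WS z ξ J).ncard ≤ {c : V × Fin M → k | EqB l (fun s => F • s) c ∧ (∀ x, x ∉ WS → c x = z x) ∧ ∀ x ∈ WS, c x ≠ 0}.ncard +
      ∑ x0 ∈ J, {c : V × Fin M → k | EqB l (fun s => F • s) c ∧
      (∀ x, x ∉ WS → c x = z x) ∧ c (x0.1, x0.2) = 0 ∧ (∀ x, x ≠ (x0.1, x0.2) → c x ≠ 0) ∧
      ∀ φ : V →+ ZMod 2, (∀ s, φ (F • s) = φ s) →
        (∏ s ∈ univ.filter (fun s => φ (s - x0.1) ≠ 0), ∏ m, c (s, m)) ^ ((l - 1) / 2) = ξ x0.1 φ}.ncard := by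
    unfold AA
    refine le_trans (Set.ncard_union_le _ _) ?_
    refine Nat.add_le_add_left ?_ _
    exact Finset.set_ncard_biUnion_le J _
  have hc2 : ((AA l F WS z ξ J).ncard : ℝ) ≤ (({c : V × Fin M → k | EqB l (fun s => F • s) c ∧ (∀ x, x ∉ WS → c x = z x) ∧ ∀ x ∈ WS, c x ≠ 0}.ncard : ℕ) : ℝ) +
      ∑ x0 ∈ J, (({c : V × Fin M → k | EqB l (fun s => F • s) c ∧
      (∀ x, x ∉ WS → c x = z x) ∧ c (x0.1, x0.2) = 0 ∧ (∀ x, x ≠ (x0.1, x0.2) → c x ≠ 0) ∧
      ∀ φ : V →+ ZMod 2, (∀ s, φ (F • s) = φ s) →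
        (∏ s ∈ univ.filter (fun s => φ (s - x0.1) ≠ 0), ∏ m, c (s, m)) ^ ((l - 1) / 2) = ξ x0.1 φ}.ncard : ℕ) : ℝ) := by exact_mod_cast hc1
  have hc3 := Finset.sum_le_card_nsmul J _ _ hA1
  rw [nsmul_eq_mul] at hc3
  obtain ⟨m, hm⟩ : ∃ m, WS.card = m + 1 := ⟨WS.card - 1, by omega⟩
  have hc4 : (J.card : ℝ) * ((l : ℝ) ^ (WS.card - 1) / Mx) ≤ (l : ℝ) ^ WS.card * (r / l) := by
    have e1 : (J.card : ℝ) * ((l : ℝ) ^ (WS.card - 1) / Mx) = (l : ℝ) ^ m * (J.card / Mx) := by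
      rw [hm, Nat.add_sub_cancel]
      ring
    have e2 : (l : ℝ) ^ WS.card * (r / l) = (l : ℝ) ^ m * r := by
      rw [hm, pow_succ]
      field_simp
    rw [e1, e2]
    exact mul_le_mul_of_nonneg_left hr (by positivity)
  have e3 : (l : ℝ) ^ WS.card * (1 + (-(N - r) / l + A / (l : ℝ) ^ 2)) =
      (l : ℝ) ^ WS.card * (1 - N / l + A / (l : ℝ) ^ 2) + (l : ℝ) ^ WS.card * (r / l) := by ring
  rw [e3]
  linarith

end place

/-! ### all places -/

section all

variable {P ι V G : Type} [Fintype P] [Fintype ι] {k : P → Type} [∀ p, Field (k p)] [AddCommGroup V] [Fintype V] [Group G]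
  [DistribMulAction G V] {M : ℕ} {n : ι → ℕ} {l d : ℕ} {q : P → ℕ} {φ : P → G} {orb : V → ι} {R : Vm n l → (p : P) → V → k p}
  {Om : Set (Fin M → Vm n l)}

/-- the constant -/
noncomputable def cA (X A : ℝ) (d : ℕ) : ℝ := d * A + (d * (X + A)) ^ 2 * Real.exp (d * (X + A))

lemma q_pos (h : AbB n l d q φ orb R Om) (p : P) : l ≤ q p := by
  rcases h.dich p with h1 | h1
  · exact h1.ge
  · exact le_trans (by nlinarith [h.lp.pos]) h1

lemma fin_k (h : AbB n l d q φ orb R Om) (p : P) : Finite (k p) := by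
  obtain ⟨f, -, hf, -⟩ := h.fin p
  refine Nat.finite_of_card_ne_zero ?_
  rw [hf]
  exact pow_ne_zero _ (by have := q_pos h p; have := h.lp.pos; omega)

lemma card_P (h : AbB n l d q φ orb R Om) : Fintype.card P ≤ d := by
  have h1 : ∏ _p : P, l ≤ ∏ p : P, q p := prod_le_prod' fun p _ => q_pos h p
  rw [h.prod, prod_const, card_univ] at h1
  exact (Nat.pow_le_pow_iff_right h.lp.one_lt).1 h1

open Classical in
lemma sum_n (h : AbB n l d q φ orb R Om) (S : Finset (ι × Fin M)) :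
    ∑ x ∈ S, n x.1 = d * (univ.filter fun x : V × Fin M => (orb x.1, x.2) ∈ S).card := by
  rw [Finset.card_eq_sum_card_fiberwise (f := fun x : V × Fin M => (orb x.1, x.2)) (t := S) (by intro s hs; simpa using hs), mul_sum]
  refine Finset.sum_congr rfl fun y hy => ?_
  obtain ⟨i, m⟩ := y
  rw [← h.nn i]
  congr 1
  rw [← Finset.card_image_of_injective (univ.filter fun s : V => orb s = i) (Prod.mk_left_injective m)]
  congr 1
  ext x
  obtain ⟨s, m'⟩ := x
  simp only [mem_filter, mem_univ, true_and, mem_image, Prod.mk.injEq]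
  constructor
  · rintro ⟨s', h1, h2, h3⟩
    subst h2 h3
    exact ⟨by rw [h1]; exact hy, h1, rfl⟩
  · rintro ⟨_, h1, h2⟩
    exact ⟨s, h1, rfl, h2.symm⟩

open Classical in
theorem master (h : AbB n l d q φ orb R Om) (S : Finset (ι × Fin M)) (z : Fin M → Vm n l) (x : P → ℝ)
    (As : (p : P) → Set (V × Fin M → k p))
    (hA : ∀ y ∈ Om, (∀ i m, (i, m) ∉ S → y m i = z m i) → ∀ p, (fun x : V × Fin M => R (y x.2) p x.1) ∈ As p)
    {X A : ℝ} (hX0 : 0 ≤ X) (hA0 : 0 ≤ A)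
    (h1 : ∀ p, q p = l → ((As p).ncard : ℝ) ≤ (l : ℝ) ^ (univ.filter fun x : V × Fin M => (orb x.1, x.2) ∈ S).card *
      (1 + (-x p / l + A / (l : ℝ) ^ 2)))
    (h2 : ∀ p, q p ≠ l → (As p).ncard ≤ q p ^ (univ.filter fun x : V × Fin M => (orb x.1, x.2) ∈ S).card)
    (hx : ∀ p, |x p| ≤ X) :
    (({y | y ∈ Om ∧ ∀ i m, (i, m) ∉ S → y m i = z m i}.ncard : ℕ) : ℝ) / (l : ℝ) ^ (∑ x ∈ S, n x.1) ≤
      1 - (∑ p ∈ univ.filter (fun p => q p = l), x p) / l + cA X A d / (l : ℝ) ^ 2 := by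
  have hl1 : (1 : ℝ) ≤ l := by exact_mod_cast h.lp.one_lt.le
  have hl0 : (0 : ℝ) < l := by linarith
  obtain ⟨m, hm⟩ : ∃ m : ℕ, m = (univ.filter fun x : V × Fin M => (orb x.1, x.2) ∈ S).card := ⟨_, rfl⟩
  obtain ⟨a, ha⟩ : ∃ a : P → ℝ, a = fun p => -x p / l + A / (l : ℝ) ^ 2 := ⟨_, rfl⟩
  rw [sum_n h S, ← hm]
  rw [← hm] at h1 h2
  -- the count
  have hfin : ∀ p, Finite (k p) := fin_k h
  have hinj : Function.Injective (fun (y : Fin M → Vm n l) (p : P) (x : V × Fin M) => R (y x.2) p x.1) := by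
    intro y y' hyy
    funext m'
    refine h.inj ?_
    funext p s
    exact congrFun (congrFun hyy p) (s, m')
  have hcount : {y | y ∈ Om ∧ ∀ i m, (i, m) ∉ S → y m i = z m i}.ncard ≤ ∏ p, (As p).ncard := by
    rw [← Set.ncard_image_of_injective _ hinj]
    have e1 : (Set.pi Set.univ As).ncard = ∏ p, (As p).ncard := by
      rw [← Nat.card_coe_set_eq, Nat.card_congr (Equiv.Set.univPi As), Nat.card_pi]
      exact prod_congr rfl fun p _ => Nat.card_coe_set_eq _
    rw [← e1]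
    refine Set.ncard_le_ncard ?_ (Set.toFinite _)
    rintro c ⟨y, ⟨hy1, hy2⟩, rfl⟩ p _
    exact hA y hy1 hy2 p
  have hb : ∀ p, ((As p).ncard : ℝ) ≤ (q p : ℝ) ^ m * (if q p = l then 1 + a p else 1) := by
    intro p
    by_cases hp : q p = l
    · rw [if_pos hp, hp, ha]
      exact h1 p hp
    · rw [if_neg hp, mul_one]
      exact_mod_cast h2 p hp
  have hprod : ((∏ p, (As p).ncard : ℕ) : ℝ) ≤ (l : ℝ) ^ (d * m) * ∏ p ∈ univ.filter (fun p => q p = l), (1 + a p) := by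
    push_cast
    refine (prod_le_prod (fun p _ => Nat.cast_nonneg _) fun p _ => hb p).trans (le_of_eq ?_)
    rw [prod_mul_distrib, prod_pow, ← prod_filter]
    congr 1
    have e1 : ((∏ p, q p : ℕ) : ℝ) = (l : ℝ) ^ d := by
      rw [h.prod]
      push_cast
      rfl
    push_cast at e1
    rw [e1, ← pow_mul]
  have hc : (({y | y ∈ Om ∧ ∀ i m, (i, m) ∉ S → y m i = z m i}.ncard : ℕ) : ℝ) / (l : ℝ) ^ (d * m) ≤ ∏ p ∈ univ.filter (fun p => q p = l), (1 + a p) := by
    rw [div_le_iff₀ (by positivity), mul_comm]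
    exact (Nat.cast_le.2 hcount).trans hprod
  refine hc.trans ?_
  -- the product
  have hab : ∀ p, |a p| ≤ (X + A) / l := by
    intro p
    rw [ha]
    refine (abs_add_le _ _).trans ?_
    rw [abs_div, abs_neg, abs_of_pos hl0, abs_of_nonneg (by positivity : 0 ≤ A / (l : ℝ) ^ 2), add_div]
    refine add_le_add (div_le_div_of_nonneg_right (hx p) hl0.le) ?_
    refine div_le_div_of_nonneg_left (by positivity) hl0 (by nlinarith)
  have hcardQ : ((univ.filter (fun p => q p = l)).card : ℝ) ≤ d := by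
    exact_mod_cast (card_le_univ _).trans (card_P h)
  obtain ⟨s, hs⟩ : ∃ s : ℝ, s = ∑ p ∈ univ.filter (fun p => q p = l), |a p| := ⟨_, rfl⟩
  have hs0 : 0 ≤ s := by
    rw [hs]
    exact sum_nonneg fun _ _ => abs_nonneg _
  have hsle : s ≤ d * (X + A) / l := by
    rw [hs]
    have e1 := sum_le_card_nsmul (univ.filter (fun p => q p = l)) (fun p => |a p|) ((X + A) / l) fun p _ => hab p
    rw [nsmul_eq_mul] at e1
    refine e1.trans ?_
    rw [mul_div_assoc]
    exact mul_le_mul_of_nonneg_right hcardQ (by positivity)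
  have hsle2 : s ≤ d * (X + A) := hsle.trans (div_le_self (by positivity) hl1)
  have hest := (abs_le.1 (prod_est (univ.filter (fun p => q p = l)) a)).2
  rw [← hs] at hest
  have hsum : ∑ p ∈ univ.filter (fun p => q p = l), a p ≤ -(∑ p ∈ univ.filter (fun p => q p = l), x p) / l + d * A / (l : ℝ) ^ 2 := by
    rw [ha, sum_add_distrib, ← sum_div, sum_neg_distrib, sum_const, nsmul_eq_mul, mul_div_assoc]
    have : ((univ.filter (fun p => q p = l)).card : ℝ) * (A / (l : ℝ) ^ 2) ≤ d * (A / (l : ℝ) ^ 2) :=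
      mul_le_mul_of_nonneg_right hcardQ (by positivity)
    linarith
  have hexp : s ^ 2 * Real.exp s ≤ (d * (X + A)) ^ 2 * Real.exp (d * (X + A)) / (l : ℝ) ^ 2 := by
    have e1 : s ^ 2 ≤ (d * (X + A) / l) ^ 2 := pow_le_pow_left₀ hs0 hsle 2
    rw [div_pow] at e1
    have e2 : Real.exp s ≤ Real.exp (d * (X + A)) := Real.exp_le_exp.2 hsle2
    calc s ^ 2 * Real.exp s ≤ ((d * (X + A)) ^ 2 / (l : ℝ) ^ 2) * Real.exp (d * (X + A)) :=
          mul_le_mul e1 e2 (Real.exp_pos _).le (by positivity)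
      _ = _ := by ring
  have hfinal : cA X A d / (l : ℝ) ^ 2 = d * A / (l : ℝ) ^ 2 + (d * (X + A)) ^ 2 * Real.exp (d * (X + A)) / (l : ℝ) ^ 2 := by
    unfold cA
    rw [add_div]
  rw [hfinal]
  have e4 : -(∑ p ∈ univ.filter (fun p => q p = l), x p) / (l : ℝ) = -((∑ p ∈ univ.filter (fun p => q p = l), x p) / l) := neg_div _ _
  rw [e4] at hsum
  linarith

open Classical in
theorem core {A : ℝ} (hA : 0 ≤ A) (hU : LU M V A) (hT : S_LCTB) (h2 : ∀ v : V, v + v = 0) (h : AbB n l d q φ orb R Om)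
    (S : Finset (ι × Fin M)) (hS : S.Nonempty)
    (z : Fin M → Vm n l) (J : P → Finset (V × Fin M)) (Mx r : P → ℝ)
    (hJ1 : ∀ p, q p = l → ∀ y ∈ Om, (∀ i m, (i, m) ∉ S → y m i = z m i) → ∀ t m, R (y m) p t = 0 → (t, m) ∈ J p)
    (hJ2 : ∀ p, q p = l → ∀ x ∈ J p, (orb x.1, x.2) ∈ S ∧ φ p • x.1 = x.1) (hM : ∀ p, 0 < Mx p)
    (hNS : ∀ p, q p = l → ∀ x ∈ J p, Mx p ≤ NS (fun s => φ p • s) {s : V | ∃ m, (orb s, m) ∈ S} x.1)
    (hr : ∀ p, ((J p).card : ℝ) / Mx p ≤ r p) (hr0 : ∀ p, 0 ≤ r p) (hr1 : ∀ p, r p ≤ M) :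
    (({y | y ∈ Om ∧ ∀ i m, (i, m) ∉ S → y m i = z m i}.ncard : ℕ) : ℝ) / (l : ℝ) ^ (∑ x ∈ S, n x.1) ≤
      1 - (∑ p ∈ univ.filter (fun p => q p = l),
        (((univ.filter (fun x : V × Fin M => (orb x.1, x.2) ∈ S ∧ φ p • x.1 = x.1)).card : ℝ) - r p)) / l +
        cA (Fintype.card (V × Fin M) + M) A d / (l : ℝ) ^ 2 := by
  obtain ⟨WS, hWS⟩ : ∃ WS : Finset (V × Fin M), WS = univ.filter fun x : V × Fin M => (orb x.1, x.2) ∈ S := ⟨_, rfl⟩
  have hmem : ∀ x : V × Fin M, x ∈ WS ↔ (orb x.1, x.2) ∈ S := by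
    intro x
    rw [hWS]
    simp
  have hcoe : {s : V | ∃ m, (s, m) ∈ WS} = {s : V | ∃ m, (orb s, m) ∈ S} := by
    ext s
    simp [hmem]
  have hVne : 0 < WS.card := by
    obtain ⟨⟨i, m⟩, hi⟩ := hS
    obtain ⟨s, hs⟩ := h.sur i
    exact Finset.card_pos.2 ⟨(s, m), (hmem (s, m)).2 (by rw [hs]; exact hi)⟩
  have horb : ∀ (g : G) (s : V), orb (g • s) = orb s := fun g s => ((h.orbG s (g • s)).2 ⟨g, rfl⟩).symm
  have hst : ∀ (g : G) (s : V) (m : Fin M), (s, m) ∈ WS ↔ (g • s, m) ∈ WS := by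
    intro g s m
    rw [hmem, hmem, horb]
  have hagree : ∀ y : Fin M → Vm n l, (∀ i m, (i, m) ∉ S → y m i = z m i) → ∀ p, ∀ x : V × Fin M, x ∉ WS → R (y x.2) p x.1 = R (z x.2) p x.1 := by
    intro y hy p x hs
    exact h.cmp (y x.2) (z x.2) x.1 (hy _ _ (by rwa [hmem] at hs)) p
  have hxi : ∃ ξ : (p : P) → V → (V →+ ZMod 2) → k p, ∀ p, q p = l → ∀ t, ∀ y ∈ Om, ∀ m, R (y m) p t = 0 →
      ∀ χ : V →+ ZMod 2, (∀ s, χ (φ p • s) = χ s) →
      (∏ s ∈ univ.filter (fun s => χ (s - t) ≠ 0), ∏ j, R (y j) p s) ^ ((l - 1) / 2) = ξ p t χ := by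
    have h1 : ∀ p, ∃ ξ : V → (V →+ ZMod 2) → k p, q p = l → ∀ t, ∀ y ∈ Om, ∀ m, R (y m) p t = 0 →
      ∀ χ : V →+ ZMod 2, (∀ s, χ (φ p • s) = χ s) →
      (∏ s ∈ univ.filter (fun s => χ (s - t) ≠ 0), ∏ j, R (y j) p s) ^ ((l - 1) / 2) = ξ t χ := by
      intro p
      by_cases hp : q p = l
      · choose ξ hξ using h.xi p hp
        exact ⟨ξ, fun _ => hξ⟩
      · exact ⟨fun _ _ => 0, fun hp' => absurd hp' hp⟩
    choose ξ hξ using h1
    exact ⟨ξ, hξ⟩
  obtain ⟨ξ, hξ⟩ := hxi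
  have hfin : ∀ p, Finite (k p) := fin_k h
  refine master h S z (fun p => ((univ.filter (fun x : V × Fin M => (orb x.1, x.2) ∈ S ∧ φ p • x.1 = x.1)).card : ℝ) - r p)
    (fun p => if q p = l then AA l (φ p) WS (fun x => R (z x.2) p x.1) (ξ p) (J p) else
      {c : V × Fin M → k p | EqB (q p) (fun s => φ p • s) c ∧ ∀ x, x ∉ WS → c x = R (z x.2) p x.1}) ?_
      (by positivity) hA ?_ ?_ ?_
  · intro y hy hyz p
    have hE : EqB (q p) (fun s => φ p • s) (fun x : V × Fin M => R (y x.2) p x.1) := fun s m => h.eqf (y m) p s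
    by_cases hp : q p = l
    · rw [if_pos hp]
      rw [hp] at hE
      by_cases h0 : ∀ x : V × Fin M, R (y x.2) p x.1 ≠ 0
      · left
        exact ⟨hE, hagree y hyz p, fun s _ => h0 s⟩
      · right
        push Not at h0
        obtain ⟨⟨t, m⟩, ht⟩ := h0
        simp only [Set.mem_iUnion]
        refine ⟨(t, m), hJ1 p hp y hy hyz t m ht, hE, hagree y hyz p, ht, ?_, ?_⟩
        · rintro ⟨s, m'⟩ hne
          exact (h.om y hy p hp t m ht).2 s m' hne
        · intro χ hχ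
          exact hξ p hp t y hy m ht χ hχ
    · rw [if_neg hp]
      exact ⟨hE, hagree y hyz p⟩
  · intro p hp
    simp only [if_pos hp]
    obtain ⟨f, -, hf1, hf2⟩ := h.fin p
    have : Fintype (k p) := Fintype.ofFinite _
    rw [Nat.card_eq_fintype_card, hp] at hf1
    have h1 := place hU hT h2 h.lp h.l2 hf1 (φ p) hf2 WS hVne (hst (φ p)) (fun x => R (z x.2) p x.1) (ξ p) (J p)
      (fun x hx => ⟨(hmem x).2 (hJ2 p hp x hx).1, (hJ2 p hp x hx).2⟩) (Mx p) (hM p)
      (by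
        intro x hx
        rw [hcoe]
        exact hNS p hp x hx)
      ((univ.filter (fun x : V × Fin M => (orb x.1, x.2) ∈ S ∧ φ p • x.1 = x.1)).card : ℝ) (r p)
      (by
        rw [← Set.ncard_coe_finset]
        congr 2
        ext s
        simp [hmem]) (hr p)
    rw [hWS] at h1
    rw [hWS]
    exact h1
  · intro p hp
    simp only [if_neg hp]
    have h3 := Pool.Agent.Q299.ESM.cnt (k := k p) (V := V × Fin M) (q p) (F := fun x : V × Fin M => (φ p • x.1, x.2))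
      (by
        rintro ⟨s, m⟩ ⟨s', m'⟩ hss
        simp only [Prod.mk.injEq] at hss
        rw [MulAction.injective (φ p) hss.1, hss.2])
      ((h.lp.two_le).trans (q_pos h p)) WS.card WS rfl (fun x => hst (φ p) x.1 x.2) (fun x => R (z x.2) p x.1)
    rw [← hWS]
    have e5 : {c : V × Fin M → k p | EqB (q p) (fun s => φ p • s) c ∧ ∀ x, x ∉ WS → c x = R (z x.2) p x.1} =
        Pool.Agent.Q299.ESM.Eq0 (q p) (fun x : V × Fin M => (φ p • x.1, x.2)) WS (fun x => R (z x.2) p x.1) := by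
      ext c
      constructor
      · rintro ⟨h4, h5⟩
        exact ⟨fun x => h4 x.1 x.2, h5⟩
      · rintro ⟨h4, h5⟩
        exact ⟨fun s m => h4 (s, m), h5⟩
    rw [e5]
    exact h3
  · intro p
    have h1 : ((univ.filter (fun x : V × Fin M => (orb x.1, x.2) ∈ S ∧ φ p • x.1 = x.1)).card : ℝ) ≤ Fintype.card (V × Fin M) := by
      exact_mod_cast card_le_univ _
    have h2 : (0 : ℝ) ≤ ((univ.filter (fun x : V × Fin M => (orb x.1, x.2) ∈ S ∧ φ p • x.1 = x.1)).card : ℝ) := Nat.cast_nonneg _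
    have h3 : (0 : ℝ) ≤ M := Nat.cast_nonneg _
    rw [abs_le]
    constructor
    · linarith [hr1 p]
    · linarith [hr0 p]

end all

/-! ### the statement -/

theorem cnf : S_KEY → S_LCUB → S_LCTB → S_CNF := by
  classical
  intro hKEY hU' hT M V G _ _ _ _ hM1 h2 hsemi hinv d
  obtain ⟨A0, hA0, hU⟩ := lu hU' M V
  refine ⟨cA (Fintype.card (V × Fin M) + M) A0 d, 1 / ((Fintype.card V : ℝ) + 1), by positivity, ?_⟩
  intro P ι _ _ k _ n l q φ orb R Om h S z hS hz
  have hM1' : (1 : ℝ) ≤ M := by exact_mod_cast hM1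
  obtain ⟨WS, hWS⟩ : ∃ WS : Finset (V × Fin M), WS = univ.filter fun x : V × Fin M => (orb x.1, x.2) ∈ S := ⟨_, rfl⟩
  have hmem : ∀ x : V × Fin M, x ∈ WS ↔ (orb x.1, x.2) ∈ S := by
    intro x
    rw [hWS]
    simp
  obtain ⟨VF, hVF⟩ : ∃ VF : Finset V, VF = univ.filter fun s : V => ∃ m, (orb s, m) ∈ S := ⟨_, rfl⟩
  have hVm : ∀ s, s ∈ VF ↔ ∃ m, (orb s, m) ∈ S := by
    intro s
    rw [hVF]
    simp
  have hcoe : (VF : Set V) = {s : V | ∃ m, (orb s, m) ∈ S} := by
    ext s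
    simp [hVm]
  have hVne : 0 < VF.card := by
    obtain ⟨⟨i, m⟩, hi⟩ := hS
    obtain ⟨s, hs⟩ := h.sur i
    exact Finset.card_pos.2 ⟨s, (hVm s).2 ⟨m, by rw [hs]; exact hi⟩⟩
  have hVne' : (0 : ℝ) < VF.card := by exact_mod_cast hVne
  have horb : ∀ (g : G) (s : V), orb (g • s) = orb s := fun g s => ((h.orbG s (g • s)).2 ⟨g, rfl⟩).symm
  have hGst : ∀ g : G, ∀ s ∈ {s : V | ∃ m, (orb s, m) ∈ S}, g • s ∈ {s : V | ∃ m, (orb s, m) ∈ S} := by
    intro g s hs
    obtain ⟨m, hm⟩ := hs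
    refine ⟨m, ?_⟩
    rw [horb]
    exact hm
  -- a type of an allowed class is a fixed point in WS
  have htyp : ∀ p, q p = l → ∀ y ∈ Om, (∀ i m, (i, m) ∉ S → y m i = z m i) → ∀ t m, R (y m) p t = 0 →
      (orb t, m) ∈ S ∧ φ p • t = t := by
    intro p hp y hy hyz t m ht
    constructor
    · by_contra hcon
      have := h.cmp (y m) (z m) t (hyz _ _ hcon) p
      exact hz t m hcon p (by rw [← this, ht])
    · exact (h.om y hy p hp t m ht).1
  have hkey := fun (p : P) (t : V) (ht : t ∈ {s : V | ∃ m, (orb s, m) ∈ S}) (hf : φ p • t = t) =>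
    hKEY G V h2 hsemi hinv {s : V | ∃ m, (orb s, m) ∈ S} hGst (φ p) t ht hf
  have hncard : ∀ p, {s | s ∈ {s : V | ∃ m, (orb s, m) ∈ S} ∧ φ p • s = s}.ncard = (VF.filter fun s : V => φ p • s = s).card := by
    intro p
    rw [← Set.ncard_coe_finset]
    congr 1
    ext s
    simp [hVm]
  have hcardV : ({s : V | ∃ m, (orb s, m) ∈ S}.ncard : ℝ) = VF.card := by
    rw [← hcoe, Set.ncard_coe_finset]
  have hcardle' : (VF.card : ℝ) ≤ Fintype.card V := by exact_mod_cast Finset.card_le_univ VF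
  have hWSsub : WS ⊆ VF ×ˢ (univ : Finset (Fin M)) := by
    rintro ⟨s, m⟩ hx
    rw [mem_product]
    exact ⟨(hVm s).2 ⟨m, (hmem _).1 hx⟩, mem_univ _⟩
  have hWSle : (WS.card : ℝ) ≤ VF.card * M := by
    have := card_le_card hWSsub
    rw [card_product, card_univ, Fintype.card_fin] at this
    exact_mod_cast this
  -- the standard choice
  obtain ⟨J0, hJ0⟩ : ∃ J0 : P → Finset (V × Fin M), J0 = fun p => univ.filter fun x : V × Fin M => (orb x.1, x.2) ∈ S ∧ φ p • x.1 = x.1 := ⟨_, rfl⟩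
  obtain ⟨M0, hM0⟩ : ∃ M0 : P → ℝ, M0 = fun p => max 1 ((VF.filter fun s : V => φ p • s = s).card : ℝ) := ⟨_, rfl⟩
  have hM0p : ∀ p, 0 < M0 p := by
    intro p
    rw [hM0]
    positivity
  have hJ0m : ∀ p x, x ∈ J0 p ↔ (orb x.1, x.2) ∈ S ∧ φ p • x.1 = x.1 := by
    intro p x
    rw [hJ0]
    simp
  have hNS0 : ∀ p, ∀ x ∈ J0 p, M0 p ≤ NS (fun s => φ p • s) {s : V | ∃ m, (orb s, m) ∈ S} x.1 := by
    intro p x hx
    have h1 := (hJ0m p x).1 hx
    have h3 := (hkey p x.1 ⟨x.2, h1.1⟩ h1.2).1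
    rw [hncard] at h3
    have h4 : 1 ≤ (VF.filter fun s : V => φ p • s = s).card :=
      Finset.card_pos.2 ⟨x.1, mem_filter.2 ⟨(hVm _).2 ⟨x.2, h1.1⟩, h1.2⟩⟩
    rw [hM0]
    simp only
    rw [max_eq_right (by exact_mod_cast h4)]
    exact (Nat.cast_le (α := ℝ)).2 h3
  have hr0 : ∀ p, ((J0 p).card : ℝ) / M0 p ≤ M := by
    intro p
    rw [div_le_iff₀ (hM0p p), hM0]
    have h3 : J0 p ⊆ (VF.filter fun s : V => φ p • s = s) ×ˢ (univ : Finset (Fin M)) := by
      rintro ⟨s, m⟩ hx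
      have h1 := (hJ0m p _).1 hx
      rw [mem_product, mem_filter]
      exact ⟨⟨(hVm s).2 ⟨m, h1.1⟩, h1.2⟩, mem_univ _⟩
    have h4 := card_le_card h3
    rw [card_product, card_univ, Fintype.card_fin] at h4
    have h5 : ((J0 p).card : ℝ) ≤ ((VF.filter fun s : V => φ p • s = s).card : ℝ) * M := by exact_mod_cast h4
    have h6 : ((VF.filter fun s : V => φ p • s = s).card : ℝ) ≤ max 1 ((VF.filter fun s : V => φ p • s = s).card : ℝ) := le_max_right _ _
    simp only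
    nlinarith
  have hκ1 : (1 : ℝ) / ((Fintype.card V : ℝ) + 1) ≤ 1 := by
    rw [div_le_one (by positivity)]
    have : (0 : ℝ) ≤ Fintype.card V := Nat.cast_nonneg _
    linarith
  have hκ0 : (0 : ℝ) < 1 / ((Fintype.card V : ℝ) + 1) := by positivity
  obtain ⟨κ, hκ⟩ : ∃ κ : ℝ, κ = 1 / ((Fintype.card V : ℝ) + 1) := ⟨_, rfl⟩
  rw [← hκ] at hκ1 hκ0 ⊢
  have hκa : ∀ a : ℝ, 0 < a → a ≤ (Fintype.card V : ℝ) + 1 → κ ≤ 1 / a := by
    intro a ha ha'
    rw [hκ]
    exact one_div_le_one_div_of_le ha ha'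
  -- the last step
  have hlast : ∀ (p0 : P) (r : P → ℝ), q p0 = l → (∀ p, r p ≤ M) → r p0 ≤ M - κ →
      (∑ p ∈ univ.filter (fun p => q p = l),
        (((univ.filter (fun x : V × Fin M => (orb x.1, x.2) ∈ S ∧ φ p • x.1 = x.1)).card : ℝ) - M)) + κ ≤
      ∑ p ∈ univ.filter (fun p => q p = l),
        (((univ.filter (fun x : V × Fin M => (orb x.1, x.2) ∈ S ∧ φ p • x.1 = x.1)).card : ℝ) - r p) := by
    intro p0 r hp0 hr hr2
    have hm0 : p0 ∈ univ.filter (fun p => q p = l) := by simp [hp0]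
    rw [← Finset.add_sum_erase _ _ hm0, ← Finset.add_sum_erase _ (fun p => (((univ.filter (fun x : V × Fin M => (orb x.1, x.2) ∈ S ∧ φ p • x.1 = x.1)).card : ℝ) - r p)) hm0]
    have h5 : ∑ p ∈ (univ.filter (fun p => q p = l)).erase p0,
        (((univ.filter (fun x : V × Fin M => (orb x.1, x.2) ∈ S ∧ φ p • x.1 = x.1)).card : ℝ) - M) ≤
        ∑ p ∈ (univ.filter (fun p => q p = l)).erase p0,
        (((univ.filter (fun x : V × Fin M => (orb x.1, x.2) ∈ S ∧ φ p • x.1 = x.1)).card : ℝ) - r p) :=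
      sum_le_sum fun p _ => by linarith [hr p]
    linarith
  have hl0 : (0 : ℝ) < l := by exact_mod_cast h.lp.pos
  have hfix : ∀ p, φ p = 1 → ∀ x ∈ WS, (orb x.1, x.2) ∈ S ∧ φ p • x.1 = x.1 := fun p hp x hx =>
    ⟨(hmem x).1 hx, by rw [hp, one_smul]⟩
  have hNSV : ∀ p, φ p = 1 → ∀ x ∈ WS, (VF.card : ℝ) ≤ NS (fun s => φ p • s) {s : V | ∃ m, (orb s, m) ∈ S} x.1 := by
    intro p hp x hx
    have h3 := (hkey p x.1 ⟨x.2, (hmem x).1 hx⟩ (by rw [hp, one_smul])).1
    rw [hncard, Finset.filter_true_of_mem (by intro s _; rw [hp, one_smul])] at h3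
    exact (Nat.cast_le (α := ℝ)).2 h3
  refine ⟨?_, ?_, ?_⟩
  · exact core hA0 hU hT h2 h S hS z J0 M0 (fun _ => (M : ℝ))
      (fun p hp y hy hyz t m ht => (hJ0m p _).2 (htyp p hp y hy hyz t m ht))
      (fun p hp x hx => (hJ0m p x).1 hx) hM0p (fun p _ => hNS0 p) hr0 (fun _ => Nat.cast_nonneg _) (fun _ => le_rfl)
  · intro hP hbad
    have hne : Nonempty P := by
      by_contra hcon
      rw [not_nonempty_iff] at hcon
      have h3 := h.prod
      rw [Finset.univ_eq_empty, Finset.prod_empty] at h3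
      have h4 : l ^ 1 ≤ l ^ d := Nat.pow_le_pow_right h.lp.pos h.d0
      rw [pow_one, ← h3] at h4
      exact absurd h.lp.one_lt (not_lt.2 h4)
    obtain ⟨p0⟩ := hne
    have hc : (({y | y ∈ Om ∧ ∀ i m, (i, m) ∉ S → y m i = z m i}.ncard : ℕ) : ℝ) / (l : ℝ) ^ (∑ x ∈ S, n x.1) ≤
      1 - (∑ p ∈ univ.filter (fun p => q p = l),
        (((univ.filter (fun x : V × Fin M => (orb x.1, x.2) ∈ S ∧ φ p • x.1 = x.1)).card : ℝ) - (M - κ))) / l +
        cA (Fintype.card (V × Fin M) + M) A0 d / (l : ℝ) ^ 2 := by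
      by_cases hsub : IsSub {s : V | ∃ m, (orb s, m) ∈ S}
      · -- not all blocks
        have hex : ∃ i m m', (i, m) ∈ S ∧ (i, m') ∉ S := by
          by_contra hcon
          push Not at hcon
          exact hbad ⟨hsub, fun i m m' hi => hcon i m m' hi⟩
        obtain ⟨i, m, m', hi, hi'⟩ := hex
        obtain ⟨s, hs⟩ := h.sur i
        have hr5 : (WS.card : ℝ) / (VF.card : ℝ) ≤ M - κ := by
          have h3 : WS ⊆ (VF ×ˢ (univ : Finset (Fin M))).erase (s, m') := by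
            intro x hx
            rw [mem_erase]
            refine ⟨?_, hWSsub hx⟩
            rintro rfl
            have := (hmem _).1 hx
            simp only [hs] at this
            exact hi' this
          have h4 := card_le_card h3
          rw [card_erase_of_mem (mem_product.2 ⟨(hVm s).2 ⟨m, by rw [hs]; exact hi⟩, mem_univ _⟩),
            card_product, card_univ, Fintype.card_fin] at h4
          have h5 : 1 ≤ VF.card * M := Nat.mul_pos hVne hM1
          have h6 : (WS.card : ℝ) ≤ VF.card * M - 1 := by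
            have h7 : WS.card + 1 ≤ VF.card * M := by omega
            have h8 : ((WS.card + 1 : ℕ) : ℝ) ≤ ((VF.card * M : ℕ) : ℝ) := Nat.cast_le.2 h7
            push_cast at h8
            linarith
          have h9 := hκa VF.card hVne' (by linarith)
          rw [div_le_iff₀ hVne']
          have h10 : κ * VF.card ≤ 1 := by
            rw [le_div_iff₀ hVne'] at h9
            exact h9
          nlinarith
        exact core hA0 hU hT h2 h S hS z (fun _ => WS) (fun _ => (VF.card : ℝ)) (fun _ => M - κ)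
          (fun p hp y hy hyz t m ht => (hmem _).2 (htyp p hp y hy hyz t m ht).1)
          (fun p hp x hx => hfix p (hP p).2 x hx)
          (fun _ => hVne')
          (fun p hp x hx => hNSV p (hP p).2 x hx)
          (fun _ => hr5) (fun _ => by linarith) (fun _ => by linarith)
      · have hr5 : (WS.card : ℝ) / ((VF.card : ℝ) + 1) ≤ M - κ := by
          have h9 := hκa ((VF.card : ℝ) + 1) (by positivity) (by linarith)
          rw [div_le_iff₀ (by positivity)]
          have h10 : κ * ((VF.card : ℝ) + 1) ≤ 1 := by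
            rw [le_div_iff₀ (by positivity)] at h9
            exact h9
          nlinarith
        exact core hA0 hU hT h2 h S hS z (fun _ => WS) (fun _ => (VF.card : ℝ) + 1) (fun _ => M - κ)
          (fun p hp y hy hyz t m ht => (hmem _).2 (htyp p hp y hy hyz t m ht).1)
          (fun p hp x hx => hfix p (hP p).2 x hx)
          (fun _ => by positivity)
          (by
            intro p hp x hx
            have h3 := (hkey p x.1 ⟨x.2, (hmem x).1 hx⟩ (by rw [(hP p).2, one_smul])).2 (by intro s; rw [(hP p).2, one_smul]) hsub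
            have h4 := (Nat.cast_le (α := ℝ)).2 h3
            rw [Nat.cast_add, Nat.cast_one, hcardV] at h4
            exact h4)
          (fun _ => hr5) (fun _ => by linarith) (fun _ => by linarith)
    refine hc.trans ?_
    have h6 := hlast p0 (fun _ => M - κ) (hP p0).1 (fun _ => by linarith) le_rfl
    have h7 := div_le_div_of_nonneg_right h6 hl0.le
    linarith
  · intro hP hbad p0 hinc
    have h0 : (0 : V) ∈ VF := (hVm 0).2 hbad.1.1
    have h9 := hκa VF.card hVne' (by linarith)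
    have h10 : κ * VF.card ≤ 1 := by
      rw [le_div_iff₀ hVne'] at h9
      exact h9
    have hr5 : ((WS.filter (fun x => x.1 ≠ 0)).card : ℝ) / (VF.card : ℝ) ≤ M - κ := by
      have h3 : WS.filter (fun x => x.1 ≠ 0) ⊆ (VF.erase 0) ×ˢ (univ : Finset (Fin M)) := by
        intro x hx
        rw [mem_filter] at hx
        rw [mem_product, mem_erase]
        exact ⟨⟨hx.2, (mem_product.1 (hWSsub hx.1)).1⟩, mem_univ _⟩
      have h4 := card_le_card h3
      rw [card_product, card_univ, Fintype.card_fin, card_erase_of_mem h0] at h4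
      have h5 : ((WS.filter (fun x => x.1 ≠ 0)).card : ℝ) ≤ (VF.card - 1) * M := by
        have h8 : (((WS.filter (fun x => x.1 ≠ 0)).card : ℕ) : ℝ) ≤ (((VF.card - 1) * M : ℕ) : ℝ) := Nat.cast_le.2 h4
        rw [Nat.cast_mul, Nat.cast_sub hVne, Nat.cast_one] at h8
        exact h8
      rw [div_le_iff₀ hVne']
      nlinarith
    have hr6 : (WS.card : ℝ) / (VF.card : ℝ) ≤ M := by
      rw [div_le_iff₀ hVne']
      linarith
    have hc := core hA0 hU hT h2 h S hS z (fun p => if p = p0 then WS.filter (fun x => x.1 ≠ 0) else WS)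
      (fun _ => (VF.card : ℝ)) (fun p => if p = p0 then M - κ else M)
      (by
        intro p hp y hy hyz t m ht
        by_cases hpp : p = p0
        · subst hpp
          simp only [if_true]
          rw [mem_filter]
          refine ⟨(hmem _).2 (htyp p hp y hy hyz t m ht).1, ?_⟩
          intro ht0
          simp only at ht0
          subst ht0
          exact hinc y hy hyz m ht
        · rw [if_neg hpp]
          exact (hmem _).2 (htyp p hp y hy hyz t m ht).1)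
      (by
        intro p hp x hx
        have hx' : x ∈ WS := by
          split_ifs at hx
          · exact (mem_filter.1 hx).1
          · exact hx
        exact hfix p (hP p).2 x hx')
      (fun _ => hVne')
      (by
        intro p hp x hx
        have hx' : x ∈ WS := by
          split_ifs at hx
          · exact (mem_filter.1 hx).1
          · exact hx
        exact hNSV p (hP p).2 x hx')
      (by
        intro p
        by_cases hpp : p = p0
        · simp only [if_pos hpp]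
          exact hr5
        · simp only [if_neg hpp]
          exact hr6)
      (by
        intro p
        split_ifs <;> linarith)
      (by
        intro p
        split_ifs <;> linarith)
    refine hc.trans ?_
    have h6 := hlast p0 (fun p => if p = p0 then M - κ else M) (hP p0).1
      (by
        intro p
        split_ifs <;> linarith) (by simp)
    have h7 := div_le_div_of_nonneg_right h6 hl0.le
    linarith

end Pool.Agent.Q285.ESB
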