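import Pool.Agent.Q161.ESB.Stm1

set_option autoImplicit false

namespace Pool.Agent.Q285.ESB

open Finset
open Pool.Agent.Q161.ESB

lemma Phi_pos' (k : ℕ) (b : ℝ) (v : ℕ → ℝ) (hv : ∀ j, 0 < v j) (J : ℕ) : 0 < Phi k b v J := by
  induction J with
  | zero => exact Real.rpow_pos_of_pos (hv 0) _
  | succ j ih =>
    have h1 := hv j
    have h2 := hv (j + 1)
    have e : Phi k b v (j + 1) = Phi k b v j * (v j / v (j + 1)) ^ (k - j - 2) *
      ((v j / v (j + 1)) ^ b + (v j) ^ (-b)) := rfl
    rw [e]
    have h3 : 0 < (v j) ^ (-b) := Real.rpow_pos_of_pos h1 _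
    have h4 : 0 < (v j / v (j + 1)) ^ b := Real.rpow_pos_of_pos (div_pos h1 h2) _
    positivity

lemma Phi_congr' (k : ℕ) (b : ℝ) (v v' : ℕ → ℝ) (J : ℕ) (h : ∀ i, i ≤ J → v i = v' i) :
    Phi k b v J = Phi k b v' J := by
  induction J with
  | zero =>
    have e : ∀ u : ℕ → ℝ, Phi k b u 0 = (u 0) ^ (-((k : ℝ) - 1)) := fun _ => rfl
    rw [e, e, h 0 le_rfl]
  | succ j ih =>
    have e : ∀ u : ℕ → ℝ, Phi k b u (j + 1) = Phi k b u j * (u j / u (j + 1)) ^ (k - j - 2) *
      ((u j / u (j + 1)) ^ b + (u j) ^ (-b)) := fun _ => rfl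
    rw [e, e, ih (fun i hi => h i (by omega)), h j (by omega), h (j + 1) le_rfl]

theorem smm (sm : S_SM) : S_SMM := by
  intro M k m b hM hMk hm hb hb1
  obtain ⟨N, rfl⟩ : ∃ N, M = N + 1 := ⟨M - 1, by omega⟩
  obtain ⟨K, rfl⟩ : ∃ K, k = K + 1 + N := ⟨k - (N + 1), by omega⟩
  have e1 : K + 1 + N + 1 - (N + 1) = K + 1 := by omega
  have e2 : K + 1 + N - (N + 1) = K := by omega
  have e3 : N + 1 - 1 = N := by omega
  obtain ⟨C, hC, h⟩ := sm (K + 1) (fun j => m (Fin.castAdd N j)) b (by omega) (fun j => hm _) hb hb1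
  refine ⟨C, hC, fun r => ?_⟩
  rw [e1, e2, e3]
  have e4 : K + 1 - 1 = K := by omega
  rw [e4] at h
  set g : (Fin (K + 1) → ℕ) → ℝ := fun w => Phi (K + 1) b
    (fun j => if h : j < K + 1 then 1 + (w ⟨j, h⟩ : ℝ) * Real.log 2 else 1) K with hg
  have hl : 0 < Real.log 2 := Real.log_pos (by norm_num)
  have hg0 : ∀ w, 0 ≤ g w := fun w => by
    refine (Phi_pos' _ _ _ (fun j => ?_) _).le
    split_ifs
    · positivity
    · exact one_pos
  have hP : ∀ w : Fin (K + 1 + N) → ℕ, Phi (K + 1) b
      (fun j => if h : j < K + 1 + N then 1 + (w ⟨j, h⟩ : ℝ) * Real.log 2 else 1) K =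
      g (fun i => w (Fin.castAdd N i)) := by
    intro w
    refine Phi_congr' _ _ _ _ _ fun i hi => ?_
    have h1 : i < K + 1 + N := by omega
    have h2 : i < K + 1 := by omega
    simp only [h1, h2, dif_pos]
    rfl
  simp only [hP]
  rw [← Finset.sum_fiberwise_of_maps_to (t := Fintype.piFinset (fun _ : Fin N => range (r + 1)))
    (g := fun (w : Fin (K + 1 + N) → ℕ) (i : Fin N) => w (Fin.natAdd (K + 1) i)) (fun w hw => ?_)]
  · calc ∑ t ∈ Fintype.piFinset (fun _ : Fin N => range (r + 1)),
        ∑ w ∈ ((Fintype.piFinset (fun _ : Fin (K + 1 + N) => range (r + 1))).filter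
          (fun w => Monotone w ∧ ∑ j, m j * w j = r)).filter
            (fun w => (fun i : Fin N => w (Fin.natAdd (K + 1) i)) = t), g (fun i => w (Fin.castAdd N i))
        ≤ ∑ t ∈ Fintype.piFinset (fun _ : Fin N => range (r + 1)), C := by
          refine Finset.sum_le_sum fun t _ => ?_
          set s : ℕ := ∑ i : Fin N, m (Fin.natAdd (K + 1) i) * t i with hs
          refine le_trans ?_ (h (r - s))
          have hinj : Set.InjOn (fun (w : Fin (K + 1 + N) → ℕ) (i : Fin (K + 1)) => w (Fin.castAdd N i))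
              ((((Fintype.piFinset (fun _ : Fin (K + 1 + N) => range (r + 1))).filter
                (fun w => Monotone w ∧ ∑ j, m j * w j = r)).filter
                  (fun w => (fun i : Fin N => w (Fin.natAdd (K + 1) i)) = t) : Finset (Fin (K + 1 + N) → ℕ)) : Set (Fin (K + 1 + N) → ℕ)) := by
            intro w hw w' hw' hww
            simp only [coe_filter, mem_filter, Set.mem_ofPred_eq] at hw hw'
            funext j
            refine Fin.addCases (fun i => ?_) (fun i => ?_) j
            · exact congrFun hww i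
            · exact (congrFun hw.2 i).trans (congrFun hw'.2 i).symm
          rw [← Finset.sum_image (f := g) hinj]
          refine Finset.sum_le_sum_of_subset_of_nonneg ?_ (fun w _ _ => hg0 w)
          intro u hu
          rw [Finset.mem_image] at hu
          obtain ⟨w, hw, rfl⟩ := hu
          simp only [mem_filter] at hw
          obtain ⟨⟨_, hmon, hsum⟩, ht⟩ := hw
          rw [Fin.sum_univ_add] at hsum
          have hs' : ∑ i : Fin N, m (Fin.natAdd (K + 1) i) * w (Fin.natAdd (K + 1) i) = s := by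
            rw [hs]
            exact Finset.sum_congr rfl fun i _ => by rw [← ht]
          rw [hs'] at hsum
          have hsum' : ∑ i : Fin (K + 1), m (Fin.castAdd N i) * w (Fin.castAdd N i) = r - s := by omega
          rw [mem_filter, Fintype.mem_piFinset]
          refine ⟨fun i => ?_, ⟨fun i i' hii => hmon (a := Fin.castAdd N i) (b := Fin.castAdd N i') hii, hsum'⟩⟩
          rw [mem_range, Nat.lt_succ_iff, ← hsum']
          calc w (Fin.castAdd N i) ≤ m (Fin.castAdd N i) * w (Fin.castAdd N i) :=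
                Nat.le_mul_of_pos_left _ (hm _)
            _ ≤ ∑ i : Fin (K + 1), m (Fin.castAdd N i) * w (Fin.castAdd N i) :=
                Finset.single_le_sum (f := fun i => m (Fin.castAdd N i) * w (Fin.castAdd N i))
                  (fun _ _ => Nat.zero_le _) (mem_univ i)
      _ = C * ((r : ℝ) + 1) ^ N := by
          rw [Finset.sum_const, Fintype.card_piFinset]
          simp [mul_comm]
  · rw [Fintype.mem_piFinset]
    intro i
    simp only [mem_filter, Fintype.mem_piFinset] at hw
    exact hw.1 _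

end Pool.Agent.Q285.ESB
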